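import Pool.Agent.J6H36.LF.Stm

/-! # Module LF-CMP of project LF of helper36: comparison of constant classes -/

set_option autoImplicit false

universe u

namespace Pool.Agent.J6H78.LFCMP

open Pool.Agent.J6H36.BSV Pool.Agent.J6H36.LF

/-- the elements which are algebraic over `P` are in the range -/
theorem mem_range_of_alg (P : Type) [Field P] (k' Ω : Type u) [Field k'] [Field Ω] [Algebra P k']
    [Algebra P Ω] [IsAlgClosed k'] (g : k' →ₐ[P] Ω) (w : Ω) (hw : IsAlgebraic P w) :
    w ∈ Set.range g := by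
  have hint : IsIntegral P w := hw.isIntegral
  have h0 : minpoly P w ≠ 0 := minpoly.ne_zero hint
  have hs : ((minpoly P w).map (algebraMap P k')).Splits := IsAlgClosed.splits _
  have h1 := hs.image_rootSet g
  have h2 : w ∈ (minpoly P w).rootSet Ω := by
    rw [Polynomial.mem_rootSet]
    exact ⟨h0, minpoly.aeval P w⟩
  rw [← h1] at h2
  obtain ⟨z, -, hz⟩ := h2
  exact ⟨z, hz⟩

theorem t_CMP : S_CMP.{u} := by
  intro hINJ T i n P _ Ω Ω' _ _ _ _ _ _ L y ψ hy
  letI : Algebra L Ω := (ψ : L →+* Ω).toAlgebra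
  let M : IntermediateField L Ω' := algebraicClosure L Ω'
  let Ψ : M →ₐ[L] Ω := IsAlgClosed.lift
  have hι : ∀ z : algebraicClosure P Ω', (algebraMap (algebraicClosure P Ω') Ω') z ∈ M := by
    intro z
    have h1 : IsAlgebraic P (z : Ω') := mem_algebraicClosure_iff.1 z.2
    exact mem_algebraicClosure_iff.2 (h1.tower_top L)
  let ι : algebraicClosure P Ω' →+* M := (algebraMap (algebraicClosure P Ω') Ω').codRestrict M hι
  have hcomm : ∀ p : P, ((Ψ : M →+* Ω).comp ι) (algebraMap P (algebraicClosure P Ω') p) =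
      algebraMap P Ω p := by
    intro p
    have h1 : ι (algebraMap P (algebraicClosure P Ω') p) = algebraMap L M (algebraMap P L p) :=
      Subtype.ext rfl
    have h2 : Ψ (algebraMap L M (algebraMap P L p)) = ψ (algebraMap P L p) := Ψ.commutes _
    rw [RingHom.comp_apply, h1]
    exact h2.trans (ψ.commutes p)
  let g : algebraicClosure P Ω' →ₐ[P] Ω := { (Ψ : M →+* Ω).comp ι with commutes' := hcomm }
  have hgr : (g : algebraicClosure P Ω' →+* Ω) = (Ψ : M →+* Ω).comp ι := rfl
  have hac : IsAlgClosed (algebraicClosure P Ω') := IsAlgClosure.isAlgClosed P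
  obtain ⟨c, hc⟩ := hy
  obtain ⟨c', hc'⟩ := mem_range_of_Over T i n (g : algebraicClosure P Ω' →+* Ω)
    (RingHom.injective _) (algebraicClosure P Ω).toSubfield.toSubring (by
      intro s hs
      have h1 : IsAlgebraic P s := mem_algebraicClosure_iff.1 hs
      exact mem_range_of_alg P _ Ω g s h1)
    (T.map i n (ψ : L →+* Ω) y) (by
      rw [← hc]
      exact map_mem_Over T i n _ _ (fun a => a.2) c)
  have hψ : (ψ : L →+* Ω) = (Ψ : M →+* Ω).comp (algebraMap L M) := by
    refine RingHom.ext fun x => ?_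
    exact (Ψ.commutes x).symm
  rw [hgr, hψ, T.map_comp, T.map_comp] at hc'
  have h3 := hINJ T i n M Ω (Ψ : M →+* Ω) hc'
  refine ⟨c', ?_⟩
  have h4 : algebraMap (algebraicClosure P Ω') Ω' = (algebraMap M Ω').comp ι := rfl
  have h5 : algebraMap L Ω' = (algebraMap M Ω').comp (algebraMap L M) := rfl
  rw [h4, h5, T.map_comp, T.map_comp, h3]

end Pool.Agent.J6H78.LFCMP
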